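import Mathlib

/-!
# MP_e06427_co: Dirac's generalization of the Hajos construction (Sachs and Stiebitz)

For every `h ≥ 3` and every `k ≥ h + 2` there are `k`-critical graphs `G₁`, `G₂` and data for
Dirac's construction such that the resulting graph is not `k`-critical.  Together with the known
positive answer for `h ≤ 2` this settles the question for all pairs `(k, h)`.

The base graph `B` has 10 vertices and 25 edges and is 5-critical.  It contains the triangle
`0, 1, 2` and the edge `0 3`.  In every 4-colouring of `B` minus the edges `1 2` and `0 3`, either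
`1` and `2` have different colours and `3` has the colour of `0`, or `1`, `2` and `3` have the same
colour.  Hence, if two copies of `B` are joined by Dirac's construction, then the edge `1 2` of the
common triangle can be deleted without lowering the chromatic number.  Joining with complete
graphs gives the other pairs `(k, h)`.
-/

set_option autoImplicit false

namespace Pool.Agent.TH781.DiracHajosFails

open SimpleGraph

/-! ## Definitions used in the statement -/

/-- `G` is `k`-critical: its chromatic number is `k`, and every proper subgraph has chromatic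
number less than `k`. -/
def IsCritical {V : Type} (G : SimpleGraph V) (k : ℕ) : Prop :=
  G.chromaticNumber = k ∧ ∀ G' : G.Subgraph, G' ≠ ⊤ → G'.coe.chromaticNumber < k

/-- The data of Dirac's construction: two finite `k`-critical graphs `G₁`, `G₂`, a complete
`h`-graph in each of them, with vertices `a₁ j` and `a₂ j` for `j : Fin h` (the bijection between
the two complete graphs sends `a₁ j` to `a₂ j`), the vertices `x₁ = a₁ o` and `x₂ = a₂ o`, and
vertices `y₁`, `y₂` outside the complete graphs, adjacent to `x₁` and `x₂` respectively. -/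
structure DiracData (k h : ℕ) where
  V₁ : Type
  V₂ : Type
  finite₁ : Finite V₁
  finite₂ : Finite V₂
  G₁ : SimpleGraph V₁
  G₂ : SimpleGraph V₂
  critical₁ : IsCritical G₁ k
  critical₂ : IsCritical G₂ k
  a₁ : Fin h → V₁
  a₂ : Fin h → V₂
  clique₁ : ∀ i j, i ≠ j → G₁.Adj (a₁ i) (a₁ j)
  clique₂ : ∀ i j, i ≠ j → G₂.Adj (a₂ i) (a₂ j)
  o : Fin h
  y₁ : V₁
  y₂ : V₂
  y₁_notMem : y₁ ∉ Set.range a₁
  y₂_notMem : y₂ ∉ Set.range a₂
  adj₁ : G₁.Adj (a₁ o) y₁
  adj₂ : G₂.Adj (a₂ o) y₂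

namespace DiracData

variable {k h : ℕ} (D : DiracData k h)

/-- The vertex set of the resulting graph: the vertices of `G₁` and the vertices of `G₂` outside
its complete `h`-graph. -/
abbrev W : Type := D.V₁ ⊕ {v : D.V₂ // v ∉ Set.range D.a₂}

/-- The natural map from the vertices of `G₁` to the vertices of the resulting graph. -/
def ι₁ (v : D.V₁) : D.W := Sum.inl v

open Classical in
/-- The natural map from the vertices of `G₂` to the vertices of the resulting graph: it sends
`a₂ j` to the vertex `a₁ j`, and it is the identity outside the complete `h`-graph. -/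
noncomputable def ι₂ (v : D.V₂) : D.W :=
  if hv : ∃ j, D.a₂ j = v then Sum.inl (D.a₁ hv.choose) else Sum.inr ⟨v, hv⟩

/-- The graph resulting from Dirac's construction: the images of `G₁ - x₁y₁` and of `G₂ - x₂y₂`,
together with the new edge `y₁y₂`. -/
noncomputable def graph : SimpleGraph D.W :=
  (D.G₁.deleteEdges {s(D.a₁ D.o, D.y₁)}).map D.ι₁ ⊔
    (D.G₂.deleteEdges {s(D.a₂ D.o, D.y₂)}).map D.ι₂ ⊔
      SimpleGraph.edge (D.ι₁ D.y₁) (D.ι₂ D.y₂)

end DiracData

/-! ## General lemmas on critical graphs -/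

lemma isCritical_of {V : Type} (G : SimpleGraph V) (k : ℕ) (hcol : G.Colorable (k + 1))
    (hnot : ¬ G.Colorable k) (hiso : ∀ v, ∃ w, G.Adj v w)
    (hdel : ∀ p q, G.Adj p q → ∃ c : V → Fin k, ∀ a b, G.Adj a b → s(a, b) ≠ s(p, q) → c a ≠ c b) :
    IsCritical G (k + 1) := by
  refine ⟨le_antisymm ?_ ?_, ?_⟩
  · exact hcol.chromaticNumber_le
  · by_contra hlt
    rw [not_le] at hlt
    have h1 : G.chromaticNumber ≤ (k : ℕ∞) := by
      have : G.chromaticNumber < ((k : ℕ∞) + 1) := by exact_mod_cast hlt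
      exact Order.le_of_lt_add_one this
    exact hnot (chromaticNumber_le_iff_colorable.1 h1)
  · intro G' hG'
    obtain ⟨p, q, hpq, hpq'⟩ : ∃ p q, G.Adj p q ∧ ¬ G'.Adj p q := by
      by_contra hcon
      push Not at hcon
      apply hG'
      ext v w
      · simp only [Subgraph.verts_top, Set.mem_univ, iff_true]
        obtain ⟨w, hw⟩ := hiso v
        exact G'.edge_vert (hcon v w hw)
      · simp only [Subgraph.top_adj]
        exact ⟨fun h => G'.adj_sub h, fun h => hcon v w h⟩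
    obtain ⟨c, hc⟩ := hdel p q hpq
    have hC : G'.coe.Colorable k := by
      refine ⟨Coloring.mk (fun v => c v) ?_⟩
      intro v w hvw
      have h1 : G'.Adj v w := by simpa using hvw
      refine hc _ _ (G'.adj_sub h1) ?_
      intro he
      rcases Sym2.eq_iff.1 he with ⟨h2, h3⟩ | ⟨h2, h3⟩
      · rw [h2, h3] at h1; exact hpq' h1
      · rw [h2, h3] at h1; exact hpq' h1.symm
    refine lt_of_le_of_lt hC.chromaticNumber_le ?_
    exact_mod_cast Nat.lt_succ_self k

lemma not_isCritical_of {V : Type} (G : SimpleGraph V) (k : ℕ) (p q : V) (hpq : G.Adj p q)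
    (hno : ∀ c : V → Fin k, ¬ ∀ a b, G.Adj a b → s(a, b) ≠ s(p, q) → c a ≠ c b) :
    ¬ IsCritical G (k + 1) := by
  rintro ⟨-, hcrit⟩
  have h1 := hcrit ((⊤ : G.Subgraph).deleteEdges {s(p, q)}) (by
    intro h
    have h2 : ((⊤ : G.Subgraph).deleteEdges {s(p, q)}).Adj p q := by rw [h]; exact hpq
    simp at h2)
  have h2 : ((⊤ : G.Subgraph).deleteEdges {s(p, q)}).coe.chromaticNumber ≤ (k : ℕ∞) := by
    have : ((⊤ : G.Subgraph).deleteEdges {s(p, q)}).coe.chromaticNumber < ((k : ℕ∞) + 1) := by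
      exact_mod_cast h1
    exact Order.le_of_lt_add_one this
  obtain ⟨C⟩ := chromaticNumber_le_iff_colorable.1 h2
  refine hno (fun v => C ⟨v, by simp⟩) ?_
  intro a b hab hne
  apply C.valid
  simp only [Subgraph.coe_adj, Subgraph.deleteEdges_adj, Subgraph.top_adj]
  exact ⟨hab, by simpa using hne⟩

/-! ## The base graph -/

/-- The edges of the base graph. -/
def EL : List (ℕ × ℕ) :=
  [(0, 1), (0, 2), (0, 3), (0, 9), (1, 2), (1, 4), (1, 5), (1, 7), (1, 9), (2, 4), (2, 6), (2, 8),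
    (3, 5), (3, 6), (3, 7), (3, 8), (3, 9), (4, 5), (4, 6), (4, 8), (5, 6), (5, 9), (6, 8), (7, 8),
    (7, 9)]

/-- Adjacency in the base graph. -/
def adjB (a b : Fin 10) : Bool := EL.contains (a.val, b.val) || EL.contains (b.val, a.val)

lemma adjB_comm (a b : Fin 10) : adjB a b = adjB b a := by
  unfold adjB; rw [Bool.or_comm]

lemma adjB_irrefl : ∀ a : Fin 10, adjB a a = false := by decide +kernel

/-- Codes of 4-colourings: for every edge a 4-colouring of `B` without this edge. -/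
def codes : List ((ℕ × ℕ) × ℕ) :=
  [((0, 1), 1001104), ((0, 2), 987780), ((0, 3), 1021988), ((0, 9), 101348), ((1, 2), 931924),
    ((1, 4), 831844), ((1, 5), 865444), ((1, 7), 807844), ((1, 9), 466084), ((2, 4), 832100),
    ((2, 6), 732260), ((2, 8), 931940), ((3, 5), 989348), ((3, 6), 989284), ((3, 7), 824228),
    ((3, 8), 866404), ((3, 9), 728228), ((4, 5), 987300), ((4, 6), 985188), ((4, 8), 833636),
    ((5, 6), 852900), ((5, 9), 990372), ((6, 8), 997476), ((7, 8), 791460), ((7, 9), 840612)]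

/-- The colouring with a given code. -/
def dec4 (n : ℕ) (a : Fin 10) : Fin 4 := ⟨(n / 4 ^ a.val) % 4, Nat.mod_lt _ (by norm_num)⟩

lemma codes_ok : ∀ e ∈ codes, ∀ a b : Fin 10, adjB a b = true →
    ¬ ((a.val = e.1.1 ∧ b.val = e.1.2) ∨ (a.val = e.1.2 ∧ b.val = e.1.1)) →
    dec4 e.2 a ≠ dec4 e.2 b := by decide +kernel

lemma codes_all : ∀ a b : Fin 10, adjB a b = true →
    ∃ e ∈ codes, (a.val = e.1.1 ∧ b.val = e.1.2) ∨ (a.val = e.1.2 ∧ b.val = e.1.1) := by
  decide +kernel

/-- `B` without an edge has a 4-colouring. -/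
lemma base_del (p q : Fin 10) (hpq : adjB p q = true) :
    ∃ c : Fin 10 → Fin 4, ∀ a b, adjB a b = true → s(a, b) ≠ s(p, q) → c a ≠ c b := by
  obtain ⟨e, he, h⟩ := codes_all p q hpq
  refine ⟨dec4 e.2, fun a b hab hne => codes_ok e he a b hab ?_⟩
  intro h'
  apply hne
  rw [Sym2.eq_iff]
  simp only [Fin.ext_iff]
  omega

/-- A 5-colouring of `B`. -/
def c5 : Fin 10 → Fin 5 := ![0, 1, 2, 1, 0, 2, 3, 0, 4, 3]

lemma c5_ok : ∀ a b : Fin 10, adjB a b = true → c5 a ≠ c5 b := by decide +kernel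

lemma base_nb : ∀ a : Fin 10, ∃ b, adjB a b = true := by decide +kernel

/-- `B` without a vertex has a 4-colouring. -/
lemma base_delv (v : Fin 10) :
    ∃ c : Fin 10 → Fin 4, ∀ a b, adjB a b = true → a ≠ v → b ≠ v → c a ≠ c b := by
  obtain ⟨w, hw⟩ := base_nb v
  obtain ⟨c, hc⟩ := base_del v w hw
  refine ⟨c, fun a b hab ha hb => hc a b hab ?_⟩
  intro h
  rcases Sym2.eq_iff.1 h with ⟨h1, _⟩ | ⟨_, h2⟩
  · exact ha h1
  · exact hb h2

set_option synthInstance.maxSize 4096 in
theorem core : ∀ c2 c4 : Fin 4, c2 ≠ c4 → ∀ c6 : Fin 4, (c2 ≠ c6 ∧ c4 ≠ c6) →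
    ∀ c8 : Fin 4, (c2 ≠ c8 ∧ c4 ≠ c8 ∧ c6 ≠ c8) → ∀ c5 : Fin 4, (c4 ≠ c5 ∧ c5 ≠ c6) →
    ∀ c3 : Fin 4, (c3 ≠ c6 ∧ c3 ≠ c8 ∧ c3 ≠ c5) → ∀ c7 : Fin 4, (c7 ≠ c8 ∧ c3 ≠ c7) →
    ∀ c9 : Fin 4, (c5 ≠ c9 ∧ c3 ≠ c9 ∧ c7 ≠ c9) →
    ∀ c1 : Fin 4, (c1 ≠ c4 ∧ c1 ≠ c5 ∧ c1 ≠ c7 ∧ c1 ≠ c9) →
    ∀ c0 : Fin 4, (c0 ≠ c2 ∧ c0 ≠ c9 ∧ c0 ≠ c1) →
    ((c1 ≠ c2 → c0 = c3) ∧ (c1 = c2 → c3 = c1)) := by
  decide +kernel

/-- The key property of the base graph. -/
lemma core' (c : Fin 10 → Fin 4)
    (hc : ∀ a b : Fin 10, adjB a b = true → s(a, b) ≠ s(1, 2) → s(a, b) ≠ s(0, 3) → c a ≠ c b) :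
    (c 1 ≠ c 2 → c 0 = c 3) ∧ (c 1 = c 2 → c 3 = c 1) := by
  have h : ∀ a b : Fin 10, adjB a b = true →
      ¬ (s(a, b) = s(1, 2) ∨ s(a, b) = s(0, 3)) → c a ≠ c b := by
    intro a b hab hne
    push Not at hne
    exact hc a b hab hne.1 hne.2
  exact core (c 2) (c 4) (h 2 4 rfl (by decide)) (c 6) ⟨h 2 6 rfl (by decide),
    h 4 6 rfl (by decide)⟩ (c 8) ⟨h 2 8 rfl (by decide), h 4 8 rfl (by decide),
    h 6 8 rfl (by decide)⟩ (c 5) ⟨h 4 5 rfl (by decide), h 5 6 rfl (by decide)⟩ (c 3)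
    ⟨h 3 6 rfl (by decide), h 3 8 rfl (by decide), h 3 5 rfl (by decide)⟩ (c 7)
    ⟨h 7 8 rfl (by decide), h 3 7 rfl (by decide)⟩ (c 9) ⟨h 5 9 rfl (by decide),
    h 3 9 rfl (by decide), h 7 9 rfl (by decide)⟩ (c 1) ⟨h 1 4 rfl (by decide),
    h 1 5 rfl (by decide), h 1 7 rfl (by decide), h 1 9 rfl (by decide)⟩ (c 0)
    ⟨h 0 2 rfl (by decide), h 0 9 rfl (by decide), h 0 1 rfl (by decide)⟩

/-! ## The join of the base graph with a complete graph -/

/-- Vertices of the join. -/
abbrev VV (m : ℕ) : Type := Fin 10 ⊕ Fin m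

/-- Adjacency in the join of `B` with the complete graph on `m` vertices. -/
def adjJ (m : ℕ) : VV m → VV m → Prop
  | .inl a, .inl b => adjB a b = true
  | .inl _, .inr _ => True
  | .inr _, .inl _ => True
  | .inr z, .inr w => z ≠ w

/-- The join of `B` with the complete graph on `m` vertices. -/
def J (m : ℕ) : SimpleGraph (VV m) where
  Adj := adjJ m
  symm.symm := by
    rintro (a | z) (b | w) h
    · simp only [adjJ] at h ⊢; rw [adjB_comm]; exact h
    · trivial
    · trivial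
    · exact Ne.symm h
  loopless.irrefl := by
    rintro (a | z) h
    · simp only [adjJ] at h; rw [adjB_irrefl] at h; exact Bool.noConfusion h
    · exact h rfl

lemma J_ll {m : ℕ} (a b : Fin 10) : (J m).Adj (Sum.inl a) (Sum.inl b) ↔ adjB a b = true := Iff.rfl
lemma J_lr {m : ℕ} (a : Fin 10) (w : Fin m) : (J m).Adj (Sum.inl a) (Sum.inr w) := trivial
lemma J_rl {m : ℕ} (a : Fin 10) (w : Fin m) : (J m).Adj (Sum.inr w) (Sum.inl a) := trivial
lemma J_rr {m : ℕ} (z w : Fin m) : (J m).Adj (Sum.inr z) (Sum.inr w) ↔ z ≠ w := Iff.rfl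

/-- The key property of the join. -/
lemma join_core (m : ℕ) (c : VV m → Fin (4 + m))
    (hc : ∀ p q : VV m, (J m).Adj p q → s(p, q) ≠ s(Sum.inl 1, Sum.inl 2) →
      s(p, q) ≠ s(Sum.inl 0, Sum.inl 3) → c p ≠ c q) :
    (c (Sum.inl 1) ≠ c (Sum.inl 2) → c (Sum.inl 0) = c (Sum.inl 3)) ∧
      (c (Sum.inl 1) = c (Sum.inl 2) → c (Sum.inl 3) = c (Sum.inl 1)) := by
  classical
  let S : Finset (Fin (4 + m)) := Finset.univ.image (fun z : Fin m => c (Sum.inr z))
  have hS : S.card = m := by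
    rw [Finset.card_image_of_injective, Finset.card_univ, Fintype.card_fin]
    intro z w hzw
    by_contra hne
    exact hc (Sum.inr z) (Sum.inr w) hne (by simp) (by simp) hzw
  have hSc : Sᶜ.card = 4 := by
    rw [Finset.card_compl, hS, Fintype.card_fin]; omega
  have hmem : ∀ a : Fin 10, c (Sum.inl a) ∈ Sᶜ := by
    intro a
    rw [Finset.mem_compl]
    intro h
    obtain ⟨z, -, hz⟩ := Finset.mem_image.1 h
    exact hc (Sum.inr z) (Sum.inl a) (J_rl a z) (by simp) (by simp) hz
  let e : {t // t ∈ Sᶜ} ≃ Fin 4 := Finset.equivFinOfCardEq hSc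
  have hinj : ∀ a b : Fin 10, e ⟨c (Sum.inl a), hmem a⟩ = e ⟨c (Sum.inl b), hmem b⟩ ↔
      c (Sum.inl a) = c (Sum.inl b) := by
    intro a b
    rw [e.apply_eq_iff_eq, Subtype.mk.injEq]
  have key := core' (fun a => e ⟨c (Sum.inl a), hmem a⟩) (by
    intro a b hab h1 h2 h3
    rw [hinj] at h3
    refine hc (Sum.inl a) (Sum.inl b) hab ?_ ?_ h3
    · intro h; apply h1
      simpa using h
    · intro h; apply h2
      simpa using h)
  simp only [ne_eq, hinj] at key
  exact key

lemma J_not_colorable (m : ℕ) : ¬ (J m).Colorable (4 + m) := by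
  rintro ⟨C⟩
  obtain ⟨h1, h2⟩ := join_core m C (fun p q hpq _ _ => C.valid hpq)
  exact C.valid ((J_ll (m := m) 0 3).2 (by decide +kernel))
    (h1 (C.valid ((J_ll (m := m) 1 2).2 (by decide +kernel))))

lemma J_colorable (m : ℕ) : (J m).Colorable (4 + m + 1) := by
  refine ⟨Coloring.mk (fun p => match p with
    | .inl a => (⟨(c5 a).val, by omega⟩ : Fin (4 + m + 1))
    | .inr z => ⟨5 + z.val, by omega⟩) ?_⟩
  rintro (a | z) (b | w) h h'
  · simp only [Fin.mk.injEq] at h'
    exact c5_ok a b h (Fin.ext h')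
  · simp only [Fin.mk.injEq] at h'
    have := (c5 a).isLt
    omega
  · simp only [Fin.mk.injEq] at h'
    have := (c5 b).isLt
    omega
  · simp only [Fin.mk.injEq] at h'
    apply h
    apply Fin.ext
    omega

lemma J_nb (m : ℕ) (v : VV m) : ∃ w, (J m).Adj v w := by
  rcases v with a | z
  · obtain ⟨b, hb⟩ := base_nb a
    exact ⟨Sum.inl b, hb⟩
  · exact ⟨Sum.inl 0, trivial⟩

/-- Colouring of the join given by a 4-colouring of `B`. -/
def ext4 (m : ℕ) (c : Fin 10 → Fin 4) : VV m → Fin (4 + m)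
  | .inl a => ⟨(c a).val, by omega⟩
  | .inr z => ⟨4 + z.val, by omega⟩

lemma J_del_edge (m : ℕ) (p q : VV m) (hpq : (J m).Adj p q) :
    ∃ c : VV m → Fin (4 + m), ∀ a b, (J m).Adj a b → s(a, b) ≠ s(p, q) → c a ≠ c b := by
  classical
  -- the mixed case
  have mixed : ∀ (v : Fin 10) (z : Fin m), ∃ c : VV m → Fin (4 + m), ∀ a b, (J m).Adj a b →
      s(a, b) ≠ s(Sum.inl v, Sum.inr z) → c a ≠ c b := by
    intro v z
    obtain ⟨c, hc⟩ := base_delv v
    refine ⟨fun p => match p with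
      | .inl a => if a = v then ⟨4 + z.val, by omega⟩ else ⟨(c a).val, by omega⟩
      | .inr w => ⟨4 + w.val, by omega⟩, ?_⟩
    rintro (a | w) (b | w') hab hne h'
    · simp only at h'
      split_ifs at h' with h1 h2 h2
      · subst h1; subst h2
        exact (J m).loopless.irrefl _ hab
      · simp only [Fin.mk.injEq] at h'
        have := (c b).isLt
        omega
      · simp only [Fin.mk.injEq] at h'
        have := (c a).isLt
        omega
      · simp only [Fin.mk.injEq] at h'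
        exact hc a b hab h1 h2 (Fin.ext h')
    · simp only at h'
      split_ifs at h' with h1
      · simp only [Fin.mk.injEq] at h'
        apply hne
        have : z = w' := Fin.ext (by omega)
        rw [h1, this]
      · simp only [Fin.mk.injEq] at h'
        have := (c a).isLt
        omega
    · simp only at h'
      split_ifs at h' with h1
      · simp only [Fin.mk.injEq] at h'
        apply hne
        have : z = w := Fin.ext (by omega)
        rw [h1, this, Sym2.eq_swap]
      · simp only [Fin.mk.injEq] at h'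
        have := (c b).isLt
        omega
    · simp only [Fin.mk.injEq] at h'
      apply hab
      apply Fin.ext
      omega
  rcases p with v | z <;> rcases q with w | z'
  · obtain ⟨c, hc⟩ := base_del v w hpq
    refine ⟨ext4 m c, ?_⟩
    rintro (a | z) (b | z') hab hne h'
    · simp only [ext4, Fin.mk.injEq] at h'
      refine hc a b hab ?_ (Fin.ext h')
      intro h
      apply hne
      rcases Sym2.eq_iff.1 h with ⟨h1, h2⟩ | ⟨h1, h2⟩
      · rw [h1, h2]
      · rw [h1, h2, Sym2.eq_swap]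
    · simp only [ext4, Fin.mk.injEq] at h'
      have := (c a).isLt
      omega
    · simp only [ext4, Fin.mk.injEq] at h'
      have := (c b).isLt
      omega
    · simp only [ext4, Fin.mk.injEq] at h'
      apply hab
      apply Fin.ext
      omega
  · exact mixed v z'
  · obtain ⟨c, hc⟩ := mixed w z
    exact ⟨c, fun a b hab hne => hc a b hab (by rw [Sym2.eq_swap (a := Sum.inl w)]; exact hne)⟩
  · -- two vertices of the complete graph: `z` and `z'` get colour `4`
    have hzz : z ≠ z' := hpq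
    -- a colouring of the complete graph without the edge `z z'`, with colours `0, ..., m - 2`
    obtain ⟨d, hd1, hd2⟩ : ∃ d : Fin m → ℕ, (∀ w, d w + 1 < m) ∧
        (∀ w w', d w = d w' → w ≠ w' → s(w, w') = s(z, z')) := by
      -- remove `z'`: the other vertices are numbered injectively
      refine ⟨fun w => let w1 := if w = z' then z else w
        if w1.val < z'.val then w1.val else w1.val - 1, ?_, ?_⟩
      · intro w
        simp only
        have h1 := w.isLt
        have h2 := z.isLt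
        have h3 := z'.isLt
        have h4 : z.val ≠ z'.val := fun h => hzz (Fin.ext h)
        by_cases hw : w = z'
        · simp only [hw, if_true]
          split_ifs <;> omega
        · have h5 : w.val ≠ z'.val := fun h => hw (Fin.ext h)
          simp only [hw, if_false]
          split_ifs <;> omega
      · intro w w' h hne
        simp only at h
        have h4 : z.val ≠ z'.val := fun h => hzz (Fin.ext h)
        by_cases hw : w = z' <;> by_cases hw' : w' = z'
        · exact absurd (hw.trans hw'.symm) hne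
        · simp only [hw, hw', if_true, if_false] at h
          have h5 : w'.val ≠ z'.val := fun h => hw' (Fin.ext h)
          have : w' = z := by
            apply Fin.ext
            split_ifs at h <;> omega
          rw [hw, this, Sym2.eq_swap]
        · simp only [hw, hw', if_true, if_false] at h
          have h5 : w.val ≠ z'.val := fun h => hw (Fin.ext h)
          have : w = z := by
            apply Fin.ext
            split_ifs at h <;> omega
          rw [hw', this]
        · simp only [hw, hw', if_false] at h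
          have h5 : w.val ≠ z'.val := fun h => hw (Fin.ext h)
          have h6 : w'.val ≠ z'.val := fun h => hw' (Fin.ext h)
          exact absurd (Fin.ext (by split_ifs at h <;> omega)) hne
    refine ⟨fun p => match p with
      | .inl a => ⟨(c5 a).val, by have := (c5 a).isLt; have := hd1 z; omega⟩
      | .inr w => ⟨5 + d w, by have := hd1 w; omega⟩, ?_⟩
    rintro (a | w) (b | w') hab hne h'
    · simp only [Fin.mk.injEq] at h'
      exact c5_ok a b hab (Fin.ext h')
    · simp only [Fin.mk.injEq] at h'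
      have := (c5 a).isLt
      omega
    · simp only [Fin.mk.injEq] at h'
      have := (c5 b).isLt
      omega
    · simp only [Fin.mk.injEq] at h'
      apply hne
      have h1 := hd2 w w' (by omega) hab
      rcases Sym2.eq_iff.1 h1 with ⟨h2, h3⟩ | ⟨h2, h3⟩
      · rw [h2, h3]
      · rw [h2, h3, Sym2.eq_swap]

lemma J_critical (m : ℕ) : IsCritical (J m) (4 + m + 1) :=
  isCritical_of (J m) (4 + m) (J_colorable m) (J_not_colorable m) (J_nb m) (J_del_edge m)

/-! ## The counterexample -/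

/-- The complete `h`-graph in the join: the triangle `0, 1, 2` and `n` vertices of the
complete graph. -/
def cl (n b : ℕ) (j : Fin (3 + n)) : VV (n + b) :=
  if hj : j.val < 3 then Sum.inl ⟨j.val, by omega⟩ else Sum.inr ⟨j.val - 3, by omega⟩

lemma cl_adj (n b : ℕ) (i j : Fin (3 + n)) (hij : i ≠ j) : (J (n + b)).Adj (cl n b i) (cl n b j) := by
  have hval : i.val ≠ j.val := fun h => hij (Fin.ext h)
  unfold cl
  split_ifs with h1 h2 h2
  · rw [J_ll]
    have key : ∀ u v : Fin 10, u.val < 3 → v.val < 3 → u ≠ v → adjB u v = true := by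
      decide +kernel
    exact key _ _ h1 h2 (by simpa [Fin.ext_iff] using hval)
  · exact J_lr _ _
  · exact J_rl _ _
  · rw [J_rr]
    simp only [ne_eq, Fin.mk.injEq]
    omega

/-- The data of the counterexample. -/
def data (n b : ℕ) : DiracData (4 + (n + b) + 1) (3 + n) where
  V₁ := VV (n + b)
  V₂ := VV (n + b)
  finite₁ := inferInstance
  finite₂ := inferInstance
  G₁ := J (n + b)
  G₂ := J (n + b)
  critical₁ := J_critical (n + b)
  critical₂ := J_critical (n + b)
  a₁ := cl n b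
  a₂ := cl n b
  clique₁ := cl_adj n b
  clique₂ := cl_adj n b
  o := ⟨0, by omega⟩
  y₁ := Sum.inl 3
  y₂ := Sum.inl 3
  y₁_notMem := by
    rintro ⟨j, hj⟩
    unfold cl at hj
    split_ifs at hj with h
    simp only [Sum.inl.injEq, Fin.ext_iff] at hj
    have : ((3 : Fin 10) : ℕ) = 3 := rfl
    omega
  y₂_notMem := by
    rintro ⟨j, hj⟩
    unfold cl at hj
    split_ifs at hj with h
    simp only [Sum.inl.injEq, Fin.ext_iff] at hj
    have : ((3 : Fin 10) : ℕ) = 3 := rfl
    omega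
  adj₁ := by
    have : cl n b ⟨0, by omega⟩ = Sum.inl 0 := rfl
    rw [this, J_ll]; decide +kernel
  adj₂ := by
    have : cl n b ⟨0, by omega⟩ = Sum.inl 0 := rfl
    rw [this, J_ll]; decide +kernel

section
variable {k h : ℕ} (D : DiracData k h)

lemma ι₁_inj : Function.Injective D.ι₁ := fun _ _ h => Sum.inl.inj h

lemma a₁_inj : Function.Injective D.a₁ := by
  intro i j h
  by_contra hne
  have := D.clique₁ i j hne
  rw [h] at this
  exact D.G₁.loopless.irrefl _ this

lemma a₂_inj : Function.Injective D.a₂ := by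
  intro i j h
  by_contra hne
  have := D.clique₂ i j hne
  rw [h] at this
  exact D.G₂.loopless.irrefl _ this

lemma ι₂_a₂ (j : Fin h) : D.ι₂ (D.a₂ j) = D.ι₁ (D.a₁ j) := by
  unfold DiracData.ι₂ DiracData.ι₁
  have hex : ∃ i, D.a₂ i = D.a₂ j := ⟨j, rfl⟩
  rw [dif_pos hex]
  have := a₂_inj D hex.choose_spec
  rw [this]

lemma ι₂_inj : Function.Injective D.ι₂ := by
  intro v w hvw
  by_cases hv : ∃ i, D.a₂ i = v
  · obtain ⟨i, rfl⟩ := hv
    by_cases hw : ∃ j, D.a₂ j = w
    · obtain ⟨j, rfl⟩ := hw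
      rw [ι₂_a₂, ι₂_a₂] at hvw
      rw [a₁_inj D (ι₁_inj D hvw)]
    · rw [ι₂_a₂] at hvw
      unfold DiracData.ι₂ DiracData.ι₁ at hvw
      rw [dif_neg hw] at hvw
      cases hvw
  · by_cases hw : ∃ j, D.a₂ j = w
    · obtain ⟨j, rfl⟩ := hw
      rw [ι₂_a₂] at hvw
      unfold DiracData.ι₂ DiracData.ι₁ at hvw
      rw [dif_neg hv] at hvw
      cases hvw
    · unfold DiracData.ι₂ at hvw
      rw [dif_neg hv, dif_neg hw] at hvw
      have := Sum.inr.inj hvw
      exact Subtype.mk.inj this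

lemma graph_adj₁ {u v : D.V₁} (huv : D.G₁.Adj u v) (hne : s(u, v) ≠ s(D.a₁ D.o, D.y₁)) :
    D.graph.Adj (D.ι₁ u) (D.ι₁ v) := by
  refine Or.inl (Or.inl ⟨(ι₁_inj D).ne huv.ne, u, v, ?_, rfl, rfl⟩)
  rw [deleteEdges_adj]
  exact ⟨huv, by simpa using hne⟩

lemma graph_adj₂ {u v : D.V₂} (huv : D.G₂.Adj u v) (hne : s(u, v) ≠ s(D.a₂ D.o, D.y₂)) :
    D.graph.Adj (D.ι₂ u) (D.ι₂ v) := by
  refine Or.inl (Or.inr ⟨(ι₂_inj D).ne huv.ne, u, v, ?_, rfl, rfl⟩)
  rw [deleteEdges_adj]
  exact ⟨huv, by simpa using hne⟩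

lemma y_ne : D.ι₁ D.y₁ ≠ D.ι₂ D.y₂ := by
  unfold DiracData.ι₂ DiracData.ι₁
  rw [dif_neg (fun h => D.y₂_notMem (by obtain ⟨j, hj⟩ := h; exact ⟨j, hj⟩))]
  intro h
  cases h

lemma graph_adj_y : D.graph.Adj (D.ι₁ D.y₁) (D.ι₂ D.y₂) := by
  refine Or.inr ?_
  rw [edge_adj]
  exact ⟨Or.inl ⟨rfl, rfl⟩, y_ne D⟩

end

lemma data_not_critical (n b : ℕ) : ¬ IsCritical (data n b).graph (4 + (n + b) + 1) := by
  set D := data n b with hD
  have e1 : D.a₁ ⟨1, by omega⟩ = (Sum.inl 1 : VV (n + b)) := rfl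
  have e2 : D.a₁ ⟨2, by omega⟩ = (Sum.inl 2 : VV (n + b)) := rfl
  have e0 : D.a₁ D.o = (Sum.inl 0 : VV (n + b)) := rfl
  have f1 : D.a₂ ⟨1, by omega⟩ = (Sum.inl 1 : VV (n + b)) := rfl
  have f2 : D.a₂ ⟨2, by omega⟩ = (Sum.inl 2 : VV (n + b)) := rfl
  have f0 : D.a₂ D.o = (Sum.inl 0 : VV (n + b)) := rfl
  have y1 : D.y₁ = (Sum.inl 3 : VV (n + b)) := rfl
  have y2 : D.y₂ = (Sum.inl 3 : VV (n + b)) := rfl
  refine not_isCritical_of D.graph (4 + (n + b)) (D.ι₁ (D.a₁ ⟨1, by omega⟩))
    (D.ι₁ (D.a₁ ⟨2, by omega⟩)) ?_ ?_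
  · apply graph_adj₁
    · exact D.clique₁ _ _ (by simp)
    · rw [e1, e2, e0, y1]
      intro h
      rcases Sym2.eq_iff.1 h with ⟨h1, h2⟩ | ⟨h1, h2⟩
      · exact absurd (Sum.inl.inj h1) (by decide)
      · exact absurd (Sum.inl.inj h1) (by decide)
  · intro c hc
    -- the two restrictions
    have r1 := join_core (n + b) (fun v => c (D.ι₁ v)) (by
      intro p q hpq hne hne'
      refine hc _ _ (graph_adj₁ D (u := p) (v := q) hpq ?_) ?_
      · rw [e0, y1]; exact hne'
      · intro h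
        apply hne
        rcases Sym2.eq_iff.1 h with ⟨h1, h2⟩ | ⟨h1, h2⟩
        · rw [ι₁_inj D h1, ι₁_inj D h2, e1, e2]
        · rw [ι₁_inj D h1, ι₁_inj D h2, e1, e2, Sym2.eq_swap])
    have r2 := join_core (n + b) (fun v => c (D.ι₂ v)) (by
      intro p q hpq hne hne'
      refine hc _ _ (graph_adj₂ D (u := p) (v := q) hpq ?_) ?_
      · rw [f0, y2]; exact hne'
      · rw [← ι₂_a₂, ← ι₂_a₂]
        intro h
        apply hne
        rcases Sym2.eq_iff.1 h with ⟨h1, h2⟩ | ⟨h1, h2⟩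
        · rw [ι₂_inj D h1, ι₂_inj D h2, f1, f2]
        · rw [ι₂_inj D h1, ι₂_inj D h2, f1, f2, Sym2.eq_swap])
    rw [← e1, ← e2, ← e0, ← y1] at r1
    rw [← f1, ← f2, ← f0, ← y2, ι₂_a₂, ι₂_a₂, ι₂_a₂] at r2
    have hy := hc _ _ (graph_adj_y D) (by
      intro h
      rcases Sym2.eq_iff.1 h with ⟨h1, h2⟩ | ⟨h1, h2⟩
      · exact D.y₁_notMem ⟨_, (ι₁_inj D h1).symm⟩
      · exact D.y₁_notMem ⟨_, (ι₁_inj D h1).symm⟩)
    by_cases h12 : c (D.ι₁ (D.a₁ ⟨1, by omega⟩)) = c (D.ι₁ (D.a₁ ⟨2, by omega⟩))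
    · exact hy ((r1.2 h12).trans (r2.2 h12).symm)
    · exact hy ((r1.1 h12).symm.trans (r2.1 h12))

/-- For all `h ≥ 3` and `k ≥ h + 2`, Dirac's construction, applied to suitable `k`-critical
graphs with complete `h`-graphs, yields a graph that is not `k`-critical. -/
theorem result : ∀ k h : ℕ, 3 ≤ h → h + 2 ≤ k →
    ∃ D : DiracData k h, ¬ IsCritical D.graph k := by
  intro k h h3 hk
  obtain ⟨n, rfl⟩ : ∃ n, h = 3 + n := ⟨h - 3, by omega⟩
  obtain ⟨b, rfl⟩ : ∃ b, k = 4 + (n + b) + 1 := ⟨k - 5 - n, by omega⟩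
  exact ⟨data n b, data_not_critical n b⟩

end Pool.Agent.TH781.DiracHajosFails
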